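import Pool.Agent.H16.CX.Basic

set_option autoImplicit false

open Set Topology Filter MeasureTheory

namespace Pool.Agent.H1.CXS

open Pool.Agent.H16.CX

attribute [local instance] Pool.Agent.H71.permTop Pool.Agent.H71.polishSpace_perm
  Pool.Agent.H71.isTopologicalGroup_perm

theorem pf_bai : T_BAI := by
  intro X _ _ _ _ hact x
  have hc1 : Continuous fun g : Equiv.Perm ℕ => g • x :=
    hact.comp (continuous_id.prodMk continuous_const)
  have hc2 : ∀ g : Equiv.Perm ℕ, Continuous fun y : X => g • y := fun g =>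
    hact.comp (continuous_const.prodMk continuous_id)
  have hcl : ∀ m : ℕ, IsClosed {g : Equiv.Perm ℕ | g • x ∈ compactCovering X m} := fun m =>
    (isCompact_compactCovering X m).isClosed.preimage hc1
  have hun : ⋃ m : ℕ, {g : Equiv.Perm ℕ | g • x ∈ compactCovering X m} = univ := by
    refine eq_univ_of_forall fun g => ?_
    have h1 : g • x ∈ ⋃ m, compactCovering X m := by
      rw [iUnion_compactCovering]
      trivial
    obtain ⟨m, hm⟩ := mem_iUnion.1 h1
    exact mem_iUnion.2 ⟨m, hm⟩
  obtain ⟨m, g0, hg0⟩ := nonempty_interior_of_iUnion_of_closed hcl hun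
  have hn : ∃ n : ℕ, ∀ h ∈ VS n, g0 * h ∈ {g : Equiv.Perm ℕ | g • x ∈ compactCovering X m} := by
    by_contra hcon
    push Not at hcon
    choose h hh1 hh2 using hcon
    have h1 : Tendsto h atTop (𝓝 1) := by
      refine Pool.Agent.H71.tendsto_perm (fun a => ?_) (fun a => ?_)
      · filter_upwards [eventually_gt_atTop a] with n hn
        exact hh1 n a hn
      · filter_upwards [eventually_gt_atTop a] with n hn
        rw [Equiv.symm_apply_eq]
        exact (hh1 n a hn).symm
    have h2 : Tendsto (fun n => g0 * h n) atTop (𝓝 g0) := by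
      have := h1.const_mul g0
      rwa [mul_one] at this
    have h3 : ∀ᶠ n in atTop, g0 * h n ∈ interior {g : Equiv.Perm ℕ | g • x ∈ compactCovering X m} :=
      h2.eventually (isOpen_interior.mem_nhds hg0)
    obtain ⟨n, hn⟩ := h3.exists
    exact hh2 n (interior_subset hn)
  obtain ⟨n, hn⟩ := hn
  refine ⟨n, ?_⟩
  have hK : IsCompact ((fun y : X => g0⁻¹ • y) '' compactCovering X m) :=
    (isCompact_compactCovering X m).image (hc2 _)
  refine hK.of_isClosed_subset isClosed_closure (closure_minimal ?_ hK.isClosed)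
  rintro y ⟨g, hg, rfl⟩
  refine ⟨(g0 * g) • x, hn g hg, ?_⟩
  show g0⁻¹ • (g0 * g) • x = g • x
  rw [smul_smul, inv_mul_cancel_left]

end Pool.Agent.H1.CXS
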