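import Pool.Agent.H16.CX.Basic

set_option autoImplicit false

open Set Topology Filter MeasureTheory

namespace Pool.Agent.H1.CXS

open Pool.Agent.H16.CX

attribute [local instance] Pool.Agent.H71.permTop Pool.Agent.H71.polishSpace_perm
  Pool.Agent.H71.isTopologicalGroup_perm Pool.Agent.H71.permMeas Pool.Agent.H71.borelSpace_perm

theorem pf_cca : T_CCA := by
  intro X _ _ _ _ _ _ hact n f hf hn
  have hact' : Measurable fun p : Equiv.Perm ℕ × X => p.1 • p.2 := hact.measurable
  let M : Set (((ℕ → Bool) × (ℕ → Bool)) × Equiv.Perm ℕ) := {p | p.2 • f p.1.1 = f p.1.2}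
  have hM : MeasurableSet M := by
    apply measurableSet_eq_fun
    · exact hact'.comp (measurable_snd.prodMk (hf.comp (measurable_fst.comp measurable_fst)))
    · exact hf.comp (measurable_snd.comp measurable_fst)
  have hR : AnalyticSet {x : (ℕ → Bool) × (ℕ → Bool) | ∃ y, (x, y) ∈ M} :=
    Pool.Agent.H71.DST.analyticSet_proj hM
  obtain ⟨φ, hφ, -, hφ'⟩ := Pool.Agent.H71.DST.exists_perfect_of_countable_sections hR (by
    intro s
    have hch : ∀ t : ℕ → Bool, ∃ k : Equiv.Perm ℕ, (∃ g : Equiv.Perm ℕ, g • f s = f t) →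
        k • f s = f t := by
      intro t
      by_cases h : ∃ g : Equiv.Perm ℕ, g • f s = f t
      · obtain ⟨k, hk⟩ := h
        exact ⟨k, fun _ => hk⟩
      · exact ⟨1, fun h' => absurd h' h⟩
    choose κ hκ using hch
    let ψ : (ℕ → Bool) → (Fin n → ℕ) := fun t i => (κ t)⁻¹ i
    have hinj : Set.InjOn ψ {t | ∃ g : Equiv.Perm ℕ, g • f s = f t} := by
      intro t ht u hu heq
      have h1 := hκ t ht
      have h2 := hκ u hu
      by_contra hne
      refine hn t u hne (κ u * (κ t)⁻¹) ?_ ?_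
      · intro i hi
        have h3 : (κ t)⁻¹ i = (κ u)⁻¹ i := congrFun heq ⟨i, hi⟩
        rw [Equiv.Perm.mul_apply, h3]
        simp
      · rw [mul_smul, ← h1, inv_smul_smul, h2]
    have hcount : (ψ '' {t | ∃ g : Equiv.Perm ℕ, g • f s = f t}).Countable := Set.to_countable _
    refine (Set.countable_of_injective_of_countable_image hinj hcount).mono ?_
    rintro t ⟨g, hg⟩
    exact ⟨g, hg⟩)
  refine ⟨fun x => f (φ x), hf.comp hφ.measurable, fun s t hst g h => hφ' s t hst ⟨g, h⟩⟩

end Pool.Agent.H1.CXS
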